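import Pool.Agent.Helper64.RN.Goals

/-!
Project RN (MP_d01c92_ag), packet RN-TOR: the torso of a partition in sets of connectivity one
(helper25).
-/

universe u

namespace Pool.Agent.Helper25.RN.TOR

open Module Submodule

variable {K : Type u} [Field K] {E : Type} [Fintype E] [DecidableEq E] {q : ℕ}

/-- The span of the vectors of `X`. -/
abbrev W (v : E → Fin q → K) (X : Finset E) : Submodule K (Fin q → K) :=
  span K (v '' (X : Set E))

omit [Fintype E] [DecidableEq E] in
lemma W_mono (v : E → Fin q → K) {X Y : Finset E} (h : X ⊆ Y) : W v X ≤ W v Y :=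
  span_mono (Set.image_mono (by exact_mod_cast h))

omit [Fintype E] [DecidableEq E] in
lemma mem_W (v : E → Fin q → K) {X : Finset E} {x : E} (h : x ∈ X) : v x ∈ W v X :=
  subset_span ⟨x, by exact_mod_cast h, rfl⟩

omit [Fintype E] in
lemma exists_S (v : E → Fin q → K) (X : Finset E) (f : Fin q → K) (hf : f ∈ W v X)
    (hf0 : f ≠ 0) :
    ∃ S ⊆ X, LinearIndepOn K v (S : Set E) ∧ f ∉ W v S ∧ W v X = W v S ⊔ span K {f} := by
  classical
  let P := X.powerset.filter (fun S : Finset E => LinearIndepOn K v (S : Set E) ∧ f ∉ W v S)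
  have hP : (∅ : Finset E) ∈ P := by
    simp only [P, Finset.mem_filter, Finset.mem_powerset, Finset.empty_subset, true_and]
    refine ⟨by simp, ?_⟩
    simp [W, hf0]
  obtain ⟨S, hS, hmax⟩ := P.exists_max_image Finset.card ⟨∅, hP⟩
  simp only [P, Finset.mem_filter, Finset.mem_powerset] at hS hmax
  obtain ⟨hSX, hind, hfS⟩ := hS
  refine ⟨S, hSX, hind, hfS, le_antisymm ?_ ?_⟩
  · rw [W, span_le]
    rintro _ ⟨x, hx, rfl⟩
    by_contra hcon
    have hx' : x ∈ X := by exact_mod_cast hx
    have h1 : v x ∉ W v S := fun h => hcon (mem_sup_left h)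
    have hxS : x ∉ S := fun h => h1 (mem_W v h)
    have h2 : f ∉ W v (insert x S) := by
      intro h
      have h3 : f ∈ span K (insert (v x) (v '' (S : Set E))) := by
        have : v '' ((insert x S : Finset E) : Set E) = insert (v x) (v '' (S : Set E)) := by
          rw [Finset.coe_insert, Set.image_insert_eq]
        rw [← this]; exact h
      have h4 := mem_span_insert_exchange h3 hfS
      apply hcon
      rw [span_insert] at h4
      rw [sup_comm]; exact h4
    have h5 : LinearIndepOn K v ((insert x S : Finset E) : Set E) := by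
      rw [Finset.coe_insert]
      exact (linearIndepOn_insert (by exact_mod_cast hxS)).2 ⟨hind, h1⟩
    have h6 := hmax (insert x S) ⟨Finset.insert_subset hx' hSX, h5, h2⟩
    rw [Finset.card_insert_of_notMem hxS] at h6
    omega
  · exact sup_le (W_mono v hSX) (by rw [span_le]; simpa using hf)

omit [Fintype E] in
lemma rank_indep (v : E → Fin q → K) (S : Finset E) (h : LinearIndepOn K v (S : Set E)) :
    finrank K (W v S) = S.card := by
  have h1 := finrank_span_eq_card (R := K) (b := fun s : (S : Set E) => v s) h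
  have h2 : Set.range (fun s : (S : Set E) => v s) = v '' (S : Set E) := by
    ext y; simp
  rw [h2] at h1
  rw [W, h1]
  simp

theorem t : Pool.Agent.Helper64.RN.S_TOR.{u} := by
  intro K _ E _ _ q v k X hdis huniv hR
  classical
  have hR' : ∀ Y : Finset E, Pool.Agent.Helper64.RN.R v Y = finrank K (W v Y) := fun Y => rfl
  -- the vectors `f i`
  have hf : ∀ i, ∃ f : Fin q → K, f ≠ 0 ∧ f ∈ W v (X i) ∧
      ∀ x, x ∈ W v (X i) → x ∈ W v (X i)ᶜ → ∃ c : K, x = c • f := by
    intro i
    have h1 : W v (X i) ⊔ W v (X i)ᶜ = W v Finset.univ := by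
      rw [W, W, W, ← span_union, ← Set.image_union]
      congr 2
      rw [Finset.coe_compl, Finset.coe_univ, Set.union_compl_self]
    have h2 := finrank_sup_add_finrank_inf_eq (W v (X i)) (W v (X i)ᶜ)
    have h3 := hR i
    rw [hR', hR', hR'] at h3
    rw [h1] at h2
    have h4 : finrank K ↥(W v (X i) ⊓ W v (X i)ᶜ) = 1 := by omega
    obtain ⟨⟨f, hf⟩, hf0, hall⟩ := finrank_eq_one_iff'.1 h4
    refine ⟨f, fun h => hf0 (Subtype.ext h), (mem_inf.1 hf).1, fun x hx hx' => ?_⟩
    obtain ⟨c, hc⟩ := hall ⟨x, mem_inf.2 ⟨hx, hx'⟩⟩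
    exact ⟨c, by have := congrArg Subtype.val hc; exact this.symm⟩
  choose f hf0 hfX hfall using hf
  choose S hSX hSind hfS hWS using fun i => exists_S v (X i) (f i) (hfX i) (hf0 i)
  -- the elements `e i`
  have he : ∀ i, ∃ e ∈ X i, v e ∉ W v (S i) := by
    intro i
    by_contra hcon
    push Not at hcon
    apply hfS i
    have : W v (X i) ≤ W v (S i) := by
      rw [W, span_le]
      rintro _ ⟨x, hx, rfl⟩
      exact hcon x (by exact_mod_cast hx)
    exact this (hfX i)
  choose e heX heS using he
  set T : Finset E := Finset.univ.biUnion S with hT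
  have hST : ∀ i, S i ⊆ T := fun i => Finset.subset_biUnion_of_mem S (Finset.mem_univ i)
  have hXc : ∀ i j, i ≠ j → X i ⊆ (X j)ᶜ := by
    intro i j hij x hx
    rw [Finset.mem_compl]
    exact fun h => (Finset.disjoint_left.1 (hdis i j hij)) hx h
  set F : Submodule K (Fin q → K) := span K (Set.range f) with hF
  -- the main point
  have key : ∀ a : E → K, ∑ s ∈ T, a s • v s ∈ F → ∀ s ∈ T, a s = 0 := by
    intro a ha
    obtain ⟨β, hβ⟩ := (mem_span_range_iff_exists_fun K).1 ha
    have hdS : ((Finset.univ : Finset (Fin (k + 1))) : Set (Fin (k + 1))).PairwiseDisjoint S := by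
      intro i _ j _ hij
      exact Finset.disjoint_of_subset_left (hSX i)
        (Finset.disjoint_of_subset_right (hSX j) (hdis i j hij))
    rw [hT, Finset.sum_biUnion hdS] at hβ
    set σ : Fin (k + 1) → Fin q → K := fun i => ∑ s ∈ S i, a s • v s with hσ
    have hσT : ∀ i, σ i ∈ W v (S i) := fun i =>
      sum_mem fun s hs => smul_mem _ _ (mem_W v hs)
    have h1 : ∑ i, (σ i - β i • f i) = 0 := by
      rw [Finset.sum_sub_distrib, hβ, sub_self]
    have hσ0 : ∀ j, σ j = 0 := by
      intro j
      have h2 : σ j - β j • f j = - ∑ i ∈ Finset.univ.erase j, (σ i - β i • f i) := by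
        rw [← Finset.add_sum_erase _ _ (Finset.mem_univ j)] at h1
        exact eq_neg_of_add_eq_zero_left h1
      have h3 : σ j - β j • f j ∈ W v (X j)ᶜ := by
        rw [h2]
        refine neg_mem (sum_mem fun i hi => ?_)
        have hij : i ≠ j := Finset.ne_of_mem_erase hi
        exact sub_mem (W_mono v ((hSX i).trans (hXc i j hij)) (hσT i))
          (smul_mem _ _ (W_mono v (hXc i j hij) (hfX i)))
      have h4 : σ j - β j • f j ∈ W v (X j) :=
        sub_mem (W_mono v (hSX j) (hσT j)) (smul_mem _ _ (hfX j))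
      obtain ⟨c, hc⟩ := hfall j _ h4 h3
      have h5 : σ j = (c + β j) • f j := by
        rw [add_smul, ← hc]; abel
      by_cases hcz : c + β j = 0
      · rw [h5, hcz, zero_smul]
      · exfalso
        apply hfS j
        have h6 : f j = (c + β j)⁻¹ • σ j := by
          rw [h5, smul_smul, inv_mul_cancel₀ hcz, one_smul]
        rw [h6]
        exact smul_mem _ _ (hσT j)
    intro s hs
    rw [hT, Finset.mem_biUnion] at hs
    obtain ⟨i, _, hsi⟩ := hs
    exact (linearIndepOn_finset_iff.1 (hSind i)) a (hσ0 i) s hsi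
  have hTind : LinearIndepOn K v (T : Set E) := by
    rw [linearIndepOn_finset_iff]
    intro a ha
    exact key a (by rw [ha]; exact zero_mem _)
  have hdisj : Disjoint (W v T) F := by
    rw [disjoint_def]
    intro x hx hxF
    obtain ⟨c, hc⟩ := (mem_span_image_finset_iff_exists_fun K).1 hx
    let c' : E → K := fun s => if h : s ∈ T then c ⟨s, h⟩ else 0
    have hc' : ∑ s ∈ T, c' s • v s = x := by
      rw [← hc, ← Finset.sum_coe_sort T (fun s => c' s • v s)]
      exact Finset.sum_congr rfl fun s _ => by simp [c']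
    have h1 := key c' (by rw [hc']; exact hxF)
    rw [← hc']
    exact Finset.sum_eq_zero fun s hs => by rw [h1 s hs, zero_smul]
  have hdim : ∀ (A : Finset E) (G : Submodule K (Fin q → K)), A ⊆ T → G ≤ F →
      finrank K ↥(W v A ⊔ G) = A.card + finrank K G := by
    intro A G hA hG
    have h1 := finrank_sup_add_finrank_inf_eq (W v A) G
    have h2 : W v A ⊓ G = ⊥ := (hdisj.mono (W_mono v hA) hG).eq_bot
    rw [h2, finrank_bot, rank_indep v A (hTind.mono (by exact_mod_cast hA))] at h1
    omega
  refine ⟨T, e, fun i => ⟨heX i, ?_⟩, ?_, ?_⟩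
  · rw [hT, Finset.mem_biUnion]
    rintro ⟨j, _, hj⟩
    by_cases hij : j = i
    · subst hij
      exact heS j (mem_W v hj)
    · exact (Finset.disjoint_left.1 (hdis j i hij)) (hSX j hj) (heX i)
  · rw [hR', rank_indep v T hTind]
  · intro J
    set G : Submodule K (Fin q → K) := span K (f '' (J : Set (Fin (k + 1)))) with hG
    have hGF : G ≤ F := span_mono (Set.image_subset_range _ _)
    have h1 : W v (J.biUnion X) = W v (T ∩ J.biUnion X) ⊔ G := by
      apply le_antisymm
      · rw [W, span_le]
        rintro _ ⟨x, hx, rfl⟩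
        have hx' : x ∈ J.biUnion X := by exact_mod_cast hx
        obtain ⟨i, hiJ, hxi⟩ := Finset.mem_biUnion.1 hx'
        have h2 : v x ∈ W v (S i) ⊔ span K {f i} := by
          rw [← hWS i]; exact mem_W v hxi
        refine (sup_le_sup ?_ ?_ : W v (S i) ⊔ span K {f i} ≤ _) h2
        · refine W_mono v fun s hs => ?_
          rw [Finset.mem_inter]
          exact ⟨hST i hs, Finset.mem_biUnion.2 ⟨i, hiJ, hSX i hs⟩⟩
        · rw [hG]
          exact span_mono (by
            rintro _ ⟨⟩
            exact ⟨i, by exact_mod_cast hiJ, rfl⟩)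
      · refine sup_le (W_mono v Finset.inter_subset_right) ?_
        rw [hG, span_le]
        rintro _ ⟨i, hi, rfl⟩
        exact W_mono v (Finset.subset_biUnion_of_mem X (by exact_mod_cast hi)) (hfX i)
    have h2 : W v (T ∪ J.image e) = W v T ⊔ G := by
      apply le_antisymm
      · rw [W, span_le]
        rintro _ ⟨x, hx, rfl⟩
        have hx' : x ∈ T ∪ J.image e := by exact_mod_cast hx
        rcases Finset.mem_union.1 hx' with hx' | hx'
        · exact mem_sup_left (mem_W v hx')
        · obtain ⟨i, hi, rfl⟩ := Finset.mem_image.1 hx'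
          have h3 : v (e i) ∈ W v (S i) ⊔ span K {f i} := by
            rw [← hWS i]; exact mem_W v (heX i)
          refine (sup_le_sup (W_mono v (hST i)) ?_ : W v (S i) ⊔ span K {f i} ≤ _) h3
          rw [hG]
          exact span_mono (by
            rintro _ ⟨⟩
            exact ⟨i, by exact_mod_cast hi, rfl⟩)
      · refine sup_le (W_mono v Finset.subset_union_left) ?_
        rw [hG, span_le]
        rintro _ ⟨i, hi, rfl⟩
        have h3 : v (e i) ∈ span K (insert (f i) (v '' (S i : Set E))) := by
          rw [span_insert, sup_comm]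
          have : v (e i) ∈ W v (S i) ⊔ span K {f i} := by
            rw [← hWS i]; exact mem_W v (heX i)
          exact this
        have h4 := mem_span_insert_exchange h3 (heS i)
        have h5 : insert (v (e i)) (v '' (S i : Set E)) ⊆
            v '' ((T ∪ J.image e : Finset E) : Set E) := by
          rintro _ (rfl | ⟨s, hs, rfl⟩)
          · refine ⟨e i, ?_, rfl⟩
            have : e i ∈ T ∪ J.image e :=
              Finset.mem_union_right _ (Finset.mem_image.2 ⟨i, by exact_mod_cast hi, rfl⟩)
            exact_mod_cast this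
          · refine ⟨s, ?_, rfl⟩
            have : s ∈ T ∪ J.image e :=
              Finset.mem_union_left _ (hST i (by exact_mod_cast hs))
            exact_mod_cast this
        exact span_mono h5 h4
    rw [hR', hR', h1, h2, hdim _ G Finset.inter_subset_left hGF, hdim _ G (Finset.Subset.refl T) hGF]
    omega

end Pool.Agent.Helper25.RN.TOR
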